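import Mathlib
import Pool.Agent.Lib.H55G.I3
import Pool.Agent.Lib.H55G.I4
import Pool.Agent.Lib.H13T.C4

/-! # H41G: the local conditions at the primes dividing the discriminant, under OkM -/

open NumberField IsDedekindDomain WeierstrassCurve

namespace H41G

open H55P H55K H55K.TQ H55K.S
open H13S (Abv)
open H55G (OkM LocOk)

open scoped Classical

variable {F : Type} [Field F] [NumberField F]

/-- The prime of M below a prime of N'. -/
theorem lo_below {Ω : Type} [Field Ω] [Algebra F Ω] {M N' : IntermediateField F Ω} [NumberField M] [NumberField N'] (hMN : M ≤ N')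
    {V : ValuationSubring Ω} {w : HeightOneSpectrum (𝓞 N')} (hbel : Below V N' w.asIdeal) :
    ∃ v : HeightOneSpectrum (𝓞 M), Below V M v.asIdeal ∧
      ∀ x : 𝓞 F, algebraMap (𝓞 F) (𝓞 M) x ∈ v.asIdeal ↔ algebraMap (𝓞 F) (𝓞 N') x ∈ w.asIdeal := by
  obtain ⟨v, hvw⟩ := H13R.c3_below hMN w
  refine ⟨v, fun a => ?_, fun x => hvw _ _ rfl⟩
  obtain ⟨b, hb⟩ : ∃ b : 𝓞 N', ((a : M) : Ω) = ((b : N') : Ω) := by
    refine ⟨⟨⟨((a : M) : Ω), hMN (a : M).2⟩, ?_⟩, rfl⟩
    have h2 : IsIntegral ℤ (a : M) := a.isIntegral_coe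
    have h3 : IsIntegral ℤ ((IntermediateField.inclusion hMN) (a : M)) :=
      h2.map ((IntermediateField.inclusion hMN).toRingHom.toIntAlgHom)
    exact h3
  rw [hvw a b hb, hb]
  exact hbel b

/-- The fixed points of the decomposition group over a p-extension. -/
theorem lo_dec {Ω : Type} [Field Ω] [Algebra F Ω] [IsAlgClosed Ω] [Algebra.IsAlgebraic F Ω] {W : WeierstrassCurve F} {p : ℕ} (hp : p.Prime)
    (hfin : {T : Pt W Ω | p • T = 0}.Finite) {M L : IntermediateField F Ω} (hL : PExt p M L) {V : ValuationSubring Ω}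
    (h : LocOk W p M V) {N' : IntermediateField F Ω} (hNL : N' ≤ L) (T : Pt W Ω) (hT : p • T = 0)
    (hf : ∀ s ∈ N'.fixingSubgroup, Dec V s → ac W s T = T) : T = 0 := by
  have hcz : CharZero Ω := charZero_of_injective_algebraMap (algebraMap F Ω).injective
  obtain ⟨k, hk⟩ := hL.pow p hp M L
  have hconj : ∀ s ∈ M.fixingSubgroup, ∀ t ∈ L.fixingSubgroup, s * t * s⁻¹ ∈ L.fixingSubgroup :=
    fun s hs t ht => hL.conj p M L s hs t ht
  refine fix_up (acR W) p hp hfin (L.fixingSubgroup ⊓ decS F V)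
    (M.fixingSubgroup ⊓ decS F V) ?_ ?_ k ?_ ?_ T hT ?_
  · exact inf_le_inf_right _ fun s hs => IntermediateField.fixingSubgroup_antitone hL.le hs
  · intro s hs t ht
    exact ⟨hconj s hs.1 t ht.1,
      (decS F V).mul_mem ((decS F V).mul_mem hs.2 ht.2) ((decS F V).inv_mem hs.2)⟩
  · intro s hs
    exact ⟨hk s hs.1, (decS F V).pow_mem hs.2 _⟩
  · intro T' hT' hf'
    exact h.dec T' hT' fun s hs hd => hf' s ⟨hs, hd⟩
  · intro d hd'
    exact hf d (IntermediateField.fixingSubgroup_antitone hNL hd'.1) hd'.2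

/-- The action of the inertia group and multiplication by powers of p. -/
theorem lo_pow {Ω : Type} [Field Ω] [Algebra F Ω] {W : WeierstrassCurve F} {p : ℕ} {M : IntermediateField F Ω} {V : ValuationSubring Ω}
    (h : LocOk W p M V) {s : Ω ≃ₐ[F] Ω} (hs : s ∈ M.fixingSubgroup) (hi : Inert V s) (k : ℕ) (P : Pt W Ω)
    (hP : p ^ k • (ac W s P - P) = 0) : ac W s P = P := by
  induction k with
  | zero =>
    rw [pow_zero, one_smul] at hP
    exact sub_eq_zero.1 hP
  | succ k ih =>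
    apply ih
    have h1 : ac W s (p ^ k • P) = p ^ k • P := by
      refine h.inert s hs hi _ ?_
      rw [map_nsmul, ← smul_sub, ← mul_smul, ← pow_succ', hP]
    rw [map_nsmul, ← sub_eq_zero, ← smul_sub] at h1
    exact h1

variable [IQ F] {W₀ : WeierstrassCurve (𝓞 F)} {Om : ℂ} {m : Ideal (𝓞 F)} {ψ : Ideal (𝓞 F) →*₀ 𝓞 F} {p : ℕ}

/-- The two cases at a prime of M which divides the discriminant. -/
theorem lo_cases (hH : BaseH F W₀ Om m ψ) (hp : PrimeH F W₀ p) {M L : IntermediateField F (AlgebraicClosure F)}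
    [NumberField M] (hL : PExt p M L) (hOk : OkM p W₀ M) {N' : IntermediateField F (AlgebraicClosure F)} (hNL : N' ≤ L)
    {V : ValuationSubring (AlgebraicClosure F)} {v : HeightOneSpectrum (𝓞 M)} (hbel : Below V M v.asIdeal)
    (hΔ : algebraMap (𝓞 F) (𝓞 M) W₀.Δ ∈ v.asIdeal) :
    (∀ T : Pt (W₀⁄F) (AlgebraicClosure F), p • T = 0 → (∀ s ∈ N'.fixingSubgroup, Inert V s → ac (W₀⁄F) s T = T) → T = 0) ∨
      LocOk (W₀⁄F) p M V := by
  by_cases hg : H55K.GoodAt ((W₀⁄F)⁄M) v
  · exact Or.inr (H55G.locOk_of hH hp hbel hΔ hg (hOk v hΔ hg))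
  · exact Or.inl fun T hT hf => H55G.bad_tors1 hH hp hL hNL hg (fun a ha => (hbel a).1 ha) hΔ T hT hf

/-- No point of order p is fixed by the decomposition group. -/
theorem lo_main (hH : BaseH F W₀ Om m ψ) (hp : PrimeH F W₀ p) {M L : IntermediateField F (AlgebraicClosure F)}
    [NumberField M] (hL : PExt p M L) (hOk : OkM p W₀ M) {N' : IntermediateField F (AlgebraicClosure F)} (hNL : N' ≤ L)
    {V : ValuationSubring (AlgebraicClosure F)} {v : HeightOneSpectrum (𝓞 M)} (hbel : Below V M v.asIdeal)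
    (hΔ : algebraMap (𝓞 F) (𝓞 M) W₀.Δ ∈ v.asIdeal) (T : Pt (W₀⁄F) (AlgebraicClosure F)) (hT : p • T = 0)
    (hf : ∀ s ∈ N'.fixingSubgroup, Dec V s → ac (W₀⁄F) s T = T) : T = 0 := by
  rcases lo_cases hH hp hL hOk hNL hbel hΔ with h | h
  · exact h T hT fun s hs hi => hf s hs (inert_dec V s hi)
  · have hell : (W₀⁄F).IsElliptic := gen_ell W₀ hH.data.ell
    exact lo_dec hp.prime (tors_fin (Ω := AlgebraicClosure F) (W₀⁄F) p hp.prime.pos) hL h hNL T hT hf

end H41G
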