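import Mathlib
import Pool.Agent.Lib.H41G.L
import Pool.Agent.Lib.H13T.C9
import Pool.Agent.Lib.H13T.C11

/-! # H41G: the relaxed places, the local conditions and the data TS, under OkM -/

open NumberField IsDedekindDomain WeierstrassCurve

namespace H41G

open H55P H55K H55K.TQ H55K.S
open H35P (WAB)
open H13S (Abv)
open H13X (DecN)
open H55G (OkM LocOk)
open H13T
open SSG (galS PP)

open scoped Classical

variable {F : Type} [Field F] [NumberField F] [IQ F] {W₀ : WeierstrassCurve (𝓞 F)} {Om : ℂ}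
  {m : Ideal (𝓞 F)} {ψ : Ideal (𝓞 F) →*₀ 𝓞 F} {p n : ℕ} {M N' N : IntermediateField F (AlgebraicClosure F)}
  {γ : AlgebraicClosure F ≃ₐ[F] AlgebraicClosure F}

/-- A relaxed place lies above a prime in AnW. -/
theorem c5_belowO (hH : BaseH F W₀ Om m ψ) (hp : PrimeH F W₀ p) [NumberField M] [NumberField N'] [NumberField N]
    (c : CycI p n M N' N γ) (hU : UnrP p N) (hB : OkM p W₀ M) {V : ValuationSubring (AlgebraicClosure F)}
    (hV : RV (W₀⁄F) p N' N V) : ∃ w ∈ AnW p W₀ N' N, Abv N' V w := by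
  obtain ⟨⟨s, hs, hin, hsN⟩, T, hT0, hTp, hTf⟩ := hV
  have hPE := (c2_pext hp.prime.pos c).2.2
  have hVt : V ≠ ⊤ := by
    rintro rfl
    apply hsN
    have h1 : s = 1 := by
      ext x
      by_contra hx
      have h2 := hin x (ValuationSubring.mem_top x)
      have h3 : s x - x ≠ 0 := sub_ne_zero.2 hx
      have h4 := ((⊤ : ValuationSubring (AlgebraicClosure F)).valuation_le_one_iff ((s x - x)⁻¹)).2 (ValuationSubring.mem_top _)
      rw [map_inv₀] at h4
      have h5 : 0 < (⊤ : ValuationSubring (AlgebraicClosure F)).valuation (s x - x) := zero_lt_iff.2 ((map_ne_zero _).2 h3)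
      exact absurd ((one_lt_inv₀ h5).2 h2) (not_lt.2 h4)
    rw [h1]
    exact one_mem _
  obtain ⟨w, hw⟩ := H13X.xg3_below (F := F) N' hVt
  have hbel : Below V N' w.asIdeal := fun x => by
    rw [← w.valuation_lt_one_iff_mem (K := N') x]
    exact (H13S.Abv.lt hw (x : N')).symm
  have hfN := c.fin
  have hfN' : FiniteDimensional F N' := H55P.s13_fin c.le'
  have hram : Ram N' N w.asIdeal := by
    by_contra hr
    refine hsN (H55P.inert_mem N' N c.le' hPE.norm V (fun v hv hrv => hr ?_) s hs hin)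
    have e : v.asIdeal = w.asIdeal := by
      ext x
      exact (hv x).trans (hbel x).symm
    rwa [e] at hrv
  have hpw : (p : 𝓞 N') ∉ w.asIdeal := H13R.g6_ram_p hp.prime hPE c.le' le_rfl hU hram
  have hΔ : algebraMap (𝓞 F) (𝓞 N') W₀.Δ ∉ w.asIdeal := by
    intro hΔw
    obtain ⟨v, hv, hvΔ⟩ := lo_below c.le hbel
    exact hT0 (lo_main hH hp (c2_pext hp.prime.pos c).1 hB c.le' hv ((hvΔ _).2 hΔw) T hTp fun t ht htd => hTf t ht htd)
  refine ⟨w, ⟨hΔ, hram, ?_⟩, hw⟩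
  by_contra hc
  exact hT0 (H55P.fix_local W₀ p hp.prime N' V w hbel hΔ hpw hc T hTp hTf)

/-- The decomposition group over M of a relaxed place fixes all points killed by p. -/
theorem c5_decO (hH : BaseH F W₀ Om m ψ) (hp : PrimeH F W₀ p) [NumberField M] [NumberField N'] [NumberField N]
    (c : CycI p n M N' N γ) (hU : UnrP p N) (hB : OkM p W₀ M) {V : ValuationSubring (AlgebraicClosure F)}
    (hV : RV (W₀⁄F) p N' N V) (φ : AlgebraicClosure F ≃ₐ[F] AlgebraicClosure F) (hφ : φ ∈ M.fixingSubgroup) (hd : Dec V φ)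
    (T : Pt (W₀⁄F) (AlgebraicClosure F)) (hT : p • T = 0) : ac (W₀⁄F) φ T = T := by
  obtain ⟨w, hw, hVw⟩ := c5_belowO hH hp c hU hB hV
  obtain ⟨-, T0, hT00, hT0p, hT0f⟩ := hV
  obtain ⟨A, B, j, act, hA, hB', dta⟩ := exists_dta hH hp
  obtain ⟨r, s, t, Θ, -, -, hΘ⟩ := H13R.r6_iso (Ω := AlgebraicClosure F) W₀ hH.data.ell hA hB'
  obtain ⟨T1, rfl⟩ := Θ.surjective T0
  have hT10 : T1 ≠ 0 := by
    rintro rfl
    exact hT00 (map_zero Θ)
  have hT1p : p • T1 = 0 := by
    apply Θ.injective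
    rw [map_nsmul, hT0p, map_zero]
  have hT1f : ∀ s, DecN N' V s → ac (WAB A B) s T1 = T1 := by
    intro s hs
    apply Θ.injective
    rw [← hΘ, hT0f s hs.1 hs.2]
  obtain ⟨k, hk⟩ := H55P.PExt.pow p hp.prime M N' (c2_pext hp.prime.pos c).2.1
  obtain ⟨S, rfl⟩ := Θ.surjective T
  have hS : p • S = 0 := by
    apply Θ.injective
    rw [map_nsmul, hT, map_zero]
  rw [hΘ]
  refine congrArg Θ (c4_pow dta dta.unr φ k (fun S' hS' => ?_) S hS)
  refine c3_fix dta dta.unr N' hVw (c5_p hp c hU hw) (c5_n hp c hU hw) hT10 hT1p hT1f _ ⟨hk φ hφ, ?_⟩ S' hS'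
  have h1 : φ ∈ H55P.decS F V := hd
  exact pow_mem h1 (p ^ k)

/-- The element of the decomposition group. -/
theorem c6_phiO (hH : BaseH F W₀ Om m ψ) (hp : PrimeH F W₀ p) [NumberField M] [NumberField N'] [NumberField N]
    (c : CycI p n M N' N γ) (hU : UnrP p N) (hB : OkM p W₀ M) (few : (AnW p W₀ N' N).ncard < p ^ n)
    {V : ValuationSubring (AlgebraicClosure F)} (hV : RV (W₀⁄F) p N' N V) :
    ∃ φ ∈ M.fixingSubgroup, Dec V φ ∧ φ⁻¹ * γ ^ p ^ (n - 1) ∈ N'.fixingSubgroup := by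
  have hfin : (AnW p W₀ N' N).Finite := c6_fin hp.prime.pos c
  have hgm : ∀ i : ℕ, γ ^ i ∈ M.fixingSubgroup := fun i => Subgroup.pow_mem _ c.gam i
  have hex : ∀ i : ℕ, ∃ w ∈ AnW p W₀ N' N, Abv N' (cV V (γ ^ i)) w := fun i =>
    c5_belowO hH hp c hU hB ((c1_rv (W₀⁄F) p N' N V (γ ^ i) (c2_iff c _ (hgm i)).1 (c2_iff c _ (hgm i)).2).2 hV)
  choose w hwA hwV using hex
  have hcard : hfin.toFinset.card < (Finset.range (p ^ n)).card := by
    rw [Finset.card_range, ← Set.ncard_eq_toFinset_card _ hfin]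
    exact few
  obtain ⟨i, hi, j, hj, hij, hw⟩ := Finset.exists_ne_map_eq_of_card_lt_of_maps_to hcard
    (f := w) (fun i _ => by
      rw [Finset.mem_coe, Set.Finite.mem_toFinset]
      exact hwA i)
  have hmain : ∀ i j : ℕ, i < j → j < p ^ n → w i = w j →
      ∃ φ ∈ M.fixingSubgroup, Dec V φ ∧ φ⁻¹ * γ ^ p ^ (n - 1) ∈ N'.fixingSubgroup := by
    intro i j hij hj hw
    have h1 := hwV i
    rw [hw] at h1
    obtain ⟨s, hs, hs'⟩ := H13X.trans_V N' h1 (hwV j)
    obtain ⟨δ, hδ⟩ : ∃ δ, δ = γ ^ j * s * (γ ^ i)⁻¹ := ⟨_, rfl⟩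
    have hdec : Dec V δ := by
      intro x
      have h2 := hs' ((γ ^ i)⁻¹ x)
      rw [mem_cV, mem_cV] at h2
      have h3 : (γ ^ i) ((γ ^ i)⁻¹ x) = x := (γ ^ i).apply_symm_apply x
      rw [h3] at h2
      rw [hδ]
      exact h2
    have hδ2 : δ = γ ^ (j - i) * (γ ^ i * s * (γ ^ i)⁻¹) := by
      have h4 : γ ^ j = γ ^ (j - i) * γ ^ i := by
        rw [← pow_add]
        congr 1
        omega
      rw [hδ, h4]
      group
    have hs'' : γ ^ i * s * (γ ^ i)⁻¹ ∈ N'.fixingSubgroup := ((c2_iff c _ (hgm i)).1 s).2 hs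
    have hNM : ∀ t, t ∈ N'.fixingSubgroup → t ∈ M.fixingSubgroup := fun t ht =>
      IntermediateField.fixingSubgroup_antitone c.le ht
    have hδM : δ ∈ M.fixingSubgroup := by
      rw [hδ2]
      exact mul_mem (hgm _) (hNM _ hs'')
    obtain ⟨e, he⟩ := c6_num hp.prime c.pos (show 0 < j - i by omega) (show j - i < p ^ n by omega)
    have hk : ∀ k : ℕ, (γ ^ ((j - i) * k))⁻¹ * δ ^ k ∈ N'.fixingSubgroup := by
      intro k
      induction k with
      | zero =>
        rw [mul_zero, pow_zero, pow_zero, inv_one, one_mul]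
        exact one_mem _
      | succ k ih =>
        have h5 : (γ ^ ((j - i) * (k + 1)))⁻¹ * δ ^ (k + 1) =
            ((γ ^ (j - i))⁻¹ * ((γ ^ ((j - i) * k))⁻¹ * δ ^ k) * ((γ ^ (j - i))⁻¹)⁻¹) *
              (γ ^ i * s * (γ ^ i)⁻¹) := by
          have h6 : γ ^ ((j - i) * (k + 1)) = γ ^ ((j - i) * k) * γ ^ (j - i) := by
            rw [mul_add, mul_one, pow_add]
          have h7 : γ ^ i * s * (γ ^ i)⁻¹ = (γ ^ (j - i))⁻¹ * δ := by
            rw [hδ2]
            group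
          rw [h6, h7, pow_succ, mul_inv_rev]
          simp only [mul_assoc, inv_inv, mul_inv_cancel_left]
        rw [h5]
        exact mul_mem (((c2_iff c _ (inv_mem (hgm (j - i)))).1 _).2 ih) hs''
    refine ⟨δ ^ e, Subgroup.pow_mem _ hδM e, ?_, ?_⟩
    · exact Subgroup.pow_mem (decS F V) (show δ ∈ decS F V from hdec) e
    · have h8 : (γ ^ ((j - i) * e))⁻¹ * γ ^ p ^ (n - 1) ∈ N'.fixingSubgroup := by
        rcases le_total ((j - i) * e) (p ^ (n - 1)) with h9 | h9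
        · have h10 : (γ ^ ((j - i) * e))⁻¹ * γ ^ p ^ (n - 1) = γ ^ (p ^ (n - 1) - (j - i) * e) := by
            rw [inv_mul_eq_iff_eq_mul, ← pow_add]
            congr 1
            omega
          rw [h10, c.mid]
          exact (Nat.modEq_iff_dvd' h9).1 he
        · have h10 : (γ ^ ((j - i) * e))⁻¹ * γ ^ p ^ (n - 1) = (γ ^ ((j - i) * e - p ^ (n - 1)))⁻¹ := by
            rw [inv_mul_eq_iff_eq_mul, eq_mul_inv_iff_mul_eq, ← pow_add]
            congr 1
            omega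
          rw [h10]
          apply inv_mem
          rw [c.mid]
          exact (Nat.modEq_iff_dvd' h9).1 he.symm
      have h11 : (δ ^ e)⁻¹ * γ ^ p ^ (n - 1) =
          ((γ ^ ((j - i) * e))⁻¹ * δ ^ e)⁻¹ * ((γ ^ ((j - i) * e))⁻¹ * γ ^ p ^ (n - 1)) := by
        group
      rw [h11]
      exact mul_mem (inv_mem (hk e)) h8
  rw [Finset.mem_range] at hi hj
  rcases lt_or_gt_of_ne hij with h | h
  · exact hmain i j h hj hw
  · exact hmain j i h hi hw.symm

/-- The local conditions at the places which are not relaxed. -/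
theorem c7_locO (hH : BaseH F W₀ Om m ψ) (hp : PrimeH F W₀ p) [NumberField M] [NumberField N'] [NumberField N]
    (c : CycI p n M N' N γ) (hU : UnrP p N) (hB : OkM p W₀ M) {V : ValuationSubring (AlgebraicClosure F)}
    (hV : ¬ RV (W₀⁄F) p N' N V) : (∀ s ∈ N'.fixingSubgroup, Inert V s → s ∈ N.fixingSubgroup) ∨
      ((∀ s ∈ N'.fixingSubgroup, Inert V s → ∀ (k : ℕ) (P : Pt (W₀⁄F) (AlgebraicClosure F)),
          p ^ k • (ac (W₀⁄F) s P - P) = 0 → ac (W₀⁄F) s P = P) ∧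
        ∀ T : Pt (W₀⁄F) (AlgebraicClosure F), p • T = 0 → (∀ s ∈ N'.fixingSubgroup, Dec V s → ac (W₀⁄F) s T = T) → T = 0) ∨
      (V.valuation (p : AlgebraicClosure F) = 1 ∧ ∀ T : Pt (W₀⁄F) (AlgebraicClosure F), p • T = 0 →
        (∀ s ∈ N'.fixingSubgroup, Inert V s → ac (W₀⁄F) s T = T) → T = 0) := by
  have hpp := hp.prime
  obtain ⟨hMN, -, hNN⟩ := c2_pext hpp.pos c
  have hfin : FiniteDimensional F N := c.fin
  have hfin' : FiniteDimensional F N' := inferInstance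
  rcases below_cases N' V with ⟨w, hw⟩ | h
  swap
  · left
    intro s _ hi
    rw [h s hi]
    exact one_mem _
  by_cases hin : ∀ s ∈ N'.fixingSubgroup, Inert V s → s ∈ N.fixingSubgroup
  · exact Or.inl hin
  right
  have hin' : ∃ s ∈ N'.fixingSubgroup, Inert V s ∧ s ∉ N.fixingSubgroup := by
    by_contra h1
    exact hin fun s hs hi => by
      by_contra h2
      exact h1 ⟨s, hs, hi, h2⟩
  have hno : ∀ T : Pt (W₀⁄F) (AlgebraicClosure F), p • T = 0 → (∀ s ∈ N'.fixingSubgroup, Dec V s → ac (W₀⁄F) s T = T) → T = 0 := by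
    intro T hT hs
    by_contra hT0
    exact hV ⟨hin', T, hT0, hT, hs⟩
  have hram : Ram N' N w.asIdeal := by
    by_contra hr
    refine hin (inert_mem N' N c.le' (fun s hs x hx => c.nrm s (IntermediateField.fixingSubgroup_antitone c.le hs) x hx) V fun v hv => ?_)
    have e1 : v = w := by
      apply HeightOneSpectrum.ext
      ext x
      rw [hv x, hw x]
    rw [e1]
    exact hr
  have hpw : (p : 𝓞 N') ∉ w.asIdeal := H13R.g6_ram_p hpp hNN c.le' le_rfl hU hram
  by_cases hΔ : algebraMap (𝓞 F) (𝓞 N') W₀.Δ ∈ w.asIdeal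
  · obtain ⟨v, hv, hvΔ⟩ := lo_below c.le hw
    rcases lo_cases hH hp hMN hB c.le' hv ((hvΔ _).2 hΔ) with h1 | h1
    · exact Or.inr ⟨val_below N' V w hw p hpw, h1⟩
    · exact Or.inl ⟨fun s hs hi k P h =>
        lo_pow h1 (IntermediateField.fixingSubgroup_antitone c.le hs) hi k P h, hno⟩
  · left
    exact ⟨fun s _ hi k P h => c5_red hH hp hΔ hpw hw s hi k P h, hno⟩

/-- The data TS. -/
theorem c9_tsO (hH : BaseH F W₀ Om m ψ) (hp : PrimeH F W₀ p) [NumberField M] [NumberField N'] [NumberField N]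
    (c : CycI p n M N' N γ) (hU : UnrP p N) (hB : OkM p W₀ M) (hS : SelG p W₀ N') (few : (AnW p W₀ N' N).ncard < p ^ n) :
    TS (SSG.galS (W₀⁄F) (AlgebraicClosure F)).act p (SSG.galS (W₀⁄F) (AlgebraicClosure F)).U (inS F) (decS F) N.fixingSubgroup
      N'.fixingSubgroup M.fixingSubgroup (γ ^ p ^ (n - 1)) (RV (W₀⁄F) p N' N) := by
  have hNf : FiniteDimensional F N := c.fin
  have hell : (W₀⁄F).IsElliptic := gen_ell W₀ hH.data.ell
  obtain ⟨hp1, hp2, hp3⟩ := c2_pext hp.prime.pos c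
  obtain ⟨he1, he2, he3⟩ := c2_eta c
  have hUM : UnrP p M := H13R.unr_le hp.prime (c.le.trans c.le') hU
  refine
    { hp := hp.prime
      hUi := ?_
      hUc := ?_
      hN := ⟨N, c.fin, rfl⟩
      hNH := IntermediateField.fixingSubgroup_antitone c.le'
      hHH := IntermediateField.fixingSubgroup_antitone c.le
      hcomm := c2_comm c
      hη := he1
      hηp := he2
      hηpp := he3
      hgen := c2_gen c
      hconj := fun g hg v => ⟨cV v g, fun s => c1_in v g s,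
        c1_rv (W₀⁄F) p N' N v g (c2_iff c g hg).1 (c2_iff c g hg).2⟩
      hDI := fun v φ hφ s hs => inS_dec v φ hφ s hs
      h0 := fun T hT hf => H13R.tors_KR hH hp hUM hp1 le_rfl T hT hf
      hdiv := fun T => div_pt (W₀⁄F) p hp.prime.pos T
      hfix := ?_
      hloc := ?_
      hR := ?_
      sel := (sel_iff (W₀⁄F) p N').1 hS }
  · rintro _ ⟨L, hL, rfl⟩ _ ⟨L', hL', rfl⟩
    exact ⟨L ⊔ L', IntermediateField.finiteDimensional_sup L L',
      (IntermediateField.fixingSubgroup_sup).symm⟩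
  · rintro _ ⟨L, hL, rfl⟩ g
    refine ⟨(L.map (g⁻¹ : AlgebraicClosure F ≃ₐ[F] AlgebraicClosure F).toAlgHom).fixingSubgroup, ⟨_, ?_, rfl⟩, ?_⟩
    · exact LinearEquiv.finiteDimensional
        (IntermediateField.equivMap L (g⁻¹ : AlgebraicClosure F ≃ₐ[F] AlgebraicClosure F).toAlgHom).toLinearEquiv
    · intro s hs
      rw [s3_mem] at hs ⊢
      intro x hx
      have h1 : g (g⁻¹ x) = x := g.apply_symm_apply x
      have h2 : s (g⁻¹ x) = g⁻¹ x := hs _ ⟨x, hx, rfl⟩
      rw [AlgEquiv.mul_apply, AlgEquiv.mul_apply, h2, h1]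
  · intro T
    obtain ⟨L, hL, h⟩ := pt_open (W₀⁄F) T
    exact ⟨L.fixingSubgroup, ⟨L, hL, rfl⟩, h⟩
  · intro v hv
    rcases c7_locO hH hp c hU hB hv with h | h | ⟨h1, h2⟩
    · exact Or.inl h
    · exact Or.inr (Or.inl h)
    · refine Or.inr (Or.inr fun d hd hpd hco => ?_)
      obtain ⟨O, ⟨L, hL, rfl⟩, hO⟩ := hco
      exact c7_cob hH hp v h1 h2 d hd hpd ⟨L, hL, hO⟩
  · intro v hv
    obtain ⟨w, hw, hwV⟩ := c5_belowO hH hp c hU hB hv
    have hbel : Below v N' w.asIdeal := fun x => by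
      rw [H13S.Abv.lt hwV (x : N')]
      exact (HeightOneSpectrum.valuation_lt_one_iff_mem w x).symm
    obtain ⟨φ, h1, h2, h3⟩ := c6_phiO hH hp c hU hB few hv
    exact ⟨fun s _ hs k P h => c5_red hH hp hw.1 (c5_p hp c hU hw) hbel s hs k P h,
      φ, h2, h1, h3, fun T hT => c5_decO hH hp c hU hB hv φ h1 h2 T hT⟩

end H41G
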