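import Mathlib
import Pool.Agent.Lib.H41G.C
import Pool.Agent.Lib.H13T.CE

/-! # H41G: the classes, and the theorem over F, under OkM -/

open NumberField IsDedekindDomain WeierstrassCurve

namespace H41G

open H55P (IQ embF eF LF Per IsHecke Pt ac acR Inert Dec Nm Coc PExt UnrP Ram RamF SelZero SelG inS decS Below)
open H35P (WAB Ker tt)
open H55K H55K.TQ
open H55K.S
open H13S (Abv)
open H13X
open H13R
open H13T
open H55G (OkM LocOk)

open scoped Classical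

variable {F : Type} [Field F] [NumberField F] [IQ F] {W₀ : WeierstrassCurve (𝓞 F)} {Om : ℂ}
    {m : Ideal (𝓞 F)} {ψ : Ideal (𝓞 F) →*₀ 𝓞 F} {p n : ℕ} {M N' N : IntermediateField F (AlgebraicClosure F)}
    [NumberField M] [NumberField N'] [NumberField N] {γ : AlgebraicClosure F ≃ₐ[F] AlgebraicClosure F}

/-- The relaxed places are the places above the primes in AnW. -/
theorem ce_rvO (hH : BaseH F W₀ Om m ψ) (hp : PrimeH F W₀ p) (c : CycI p n M N' N γ) (hB : OkM p W₀ M) (hU : UnrP p N)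
    {V : ValuationSubring (AlgebraicClosure F)} {w : HeightOneSpectrum (𝓞 N')} (hV : Abv N' V w) :
    RV (W₀⁄F) p N' N V ↔ w ∈ AnW p W₀ N' N := by
  obtain ⟨hMN, -, hx⟩ := c2_pext hp.prime.pos c
  have hfin : FiniteDimensional F N := c.fin
  have hfin' : FiniteDimensional F N' := H55P.finDim_of_le c.le'
  have hbel := ce_bel hV
  constructor
  · rintro ⟨⟨s, hs1, hs2, hs3⟩, T, hT0, hTp, hT⟩
    have hVp := ce_p hp hU hs2 hs3
    have hpw : (p : 𝓞 N') ∉ w.asIdeal := by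
      intro h
      have h1 := (ce_val hV p).1 h
      rw [hVp] at h1
      exact lt_irrefl _ h1
    have hΔ : algebraMap (𝓞 F) (𝓞 N') W₀.Δ ∉ w.asIdeal := by
      intro hΔ
      obtain ⟨v, hv, hvΔ⟩ := lo_below c.le hbel
      exact hT0 (lo_main hH hp hMN hB c.le' hv ((hvΔ _).2 hΔ) T hTp fun t ht htd => hT t ht htd)
    refine ⟨hΔ, ?_, ?_⟩
    · by_contra hr
      refine hs3 (H55P.inert_mem N' N c.le' hx.norm V (fun v hv => ?_) s hs1 hs2)
      have e : v = w := by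
        apply HeightOneSpectrum.ext
        ext x
        rw [hv x, hbel x]
      rw [e]
      exact hr
    · by_contra hc
      exact hT0 (H55P.fix_local W₀ p hp.prime N' V w hbel hΔ hpw hc T hTp hT)
  · rintro ⟨hΔ, hr, hc⟩
    obtain ⟨hpw, -, hs⟩ := ce_norm hp c hU hV hr
    refine ⟨hs, ?_⟩
    obtain ⟨A, B, j, act, hA, hB', dta⟩ := SSG.exists_dtaAB hH hp
    obtain ⟨Θ, hΘ⟩ := SSG.short_iso W₀ hA hB' hH.data.ell (Ω := AlgebraicClosure F)
    obtain ⟨T, hT0, hT, hfT⟩ := lk_decR dta.cma W₀ hH.data.ell hA hB' N' hΔ hV hp.prime hp.five hpw hc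
    refine ⟨Θ.symm T, ?_, ?_, fun s hs hd => ?_⟩
    · rw [Ne, EmbeddingLike.map_eq_zero_iff]
      exact hT0
    · rw [← map_nsmul, hT, map_zero]
    · apply Θ.injective
      rw [hΘ, Θ.apply_symm_apply, hfT s ⟨hs, hd⟩]

/-- The decomposition group over the smaller field of a relaxed place fixes all points killed by p. -/
theorem ce_fixO (hH : BaseH F W₀ Om m ψ) (hp : PrimeH F W₀ p) (c : CycI p n M N' N γ) (hB : OkM p W₀ M) (hU : UnrP p N)
    {V : ValuationSubring (AlgebraicClosure F)} (hV : RV (W₀⁄F) p N' N V) (s : AlgebraicClosure F ≃ₐ[F] AlgebraicClosure F)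
    (hs : s ∈ N'.fixingSubgroup) (hd : Dec V s) (T : Pt (W₀⁄F) (AlgebraicClosure F)) (hT : p • T = 0) : ac (W₀⁄F) s T = T := by
  obtain ⟨w, hw⟩ := ce_below (ce_ne hV) N'
  obtain ⟨A, B, j, act, hA, hB', dta⟩ := SSG.exists_dtaAB hH hp
  obtain ⟨Θ, hΘ⟩ := SSG.short_iso W₀ hA hB' hH.data.ell (Ω := AlgebraicClosure F)
  apply Θ.injective
  rw [hΘ]
  exact ce_fixW hH hp c hU hA hB' dta hw ((ce_rvO hH hp c hB hU hw).1 hV) s ⟨hs, hd⟩ (Θ T) (by rw [← map_nsmul, hT, map_zero])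

/-- The index set of the relaxed primes. -/
theorem ce_tiO (hH : BaseH F W₀ Om m ψ) (hp : PrimeH F W₀ p) (c : CycI p n M N' N γ) (hB : OkM p W₀ M) (hU : UnrP p N) :
    ∃ (v : AnW p W₀ N' N → ValuationSubring (AlgebraicClosure F)) (τ : AnW p W₀ N' N → AlgebraicClosure F ≃ₐ[F] AlgebraicClosure F),
      (∀ w : AnW p W₀ N' N, Abv N' (v w) w.1) ∧ (∀ w, τ w ∉ N.fixingSubgroup) ∧
      TI (inS F) N.fixingSubgroup N'.fixingSubgroup (RV (W₀⁄F) p N' N) (AnW p W₀ N' N) v τ := by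
  obtain ⟨hMN, -, hx⟩ := c2_pext hp.prime.pos c
  have hfin : FiniteDimensional F N := c.fin
  have hfin' : FiniteDimensional F N' := H55P.finDim_of_le c.le'
  choose v hv using fun w : AnW p W₀ N' N => H13S.exists_above (Ω := AlgebraicClosure F) N' w.1
  choose τ h1 h2 h3 using fun w : AnW p W₀ N' N => (ce_norm hp c hU (hv w) w.2.2.1).2.2
  refine ⟨v, τ, hv, h3, fun w => (ce_rvO hH hp c hB hU (hv w)).2 w.2, h1, h2, fun w s hs hi => ?_, fun u hu => ?_⟩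
  · obtain ⟨k, hk⟩ := pow_coset hp.prime c.le' hx.norm c.deg' (h1 w) (h3 w) hs
    refine ⟨k, _, hk, ?_, ?_⟩
    · exact mul_mem (inv_mem (pow_mem (h2 w) k)) hi
    · rw [mul_inv_cancel_left]
  · obtain ⟨w, hw⟩ := ce_below (ce_ne hu) N'
    have hwA := (ce_rvO hH hp c hB hU hw).1 hu
    obtain ⟨h, hh, hhx⟩ := trans_V N' hw (hv ⟨w, hwA⟩)
    refine ⟨⟨w, hwA⟩, h, hh, fun s => ⟨fun hs => ?_, fun hs => ?_⟩⟩
    · have e1 : ∀ x, h⁻¹ x ∈ u ↔ x ∈ v ⟨w, hwA⟩ := fun x => by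
        rw [← hhx]
        have e2 : h (h⁻¹ x) = x := h.apply_symm_apply x
        rw [e2]
      have h4 := inert_conj e1 hs
      rwa [inv_inv] at h4
    · have h4 := inert_conj hhx hs
      have e1 : h⁻¹ * (h * s * h⁻¹) * h = s := by group
      rwa [e1] at h4

/-- The classes. -/
theorem ce_clsO (hH : BaseH F W₀ Om m ψ) (hp : PrimeH F W₀ p) (c : CycI p n M N' N γ) (hB : OkM p W₀ M) (hU : UnrP p N)
    (hS : SelG p W₀ N') {v : AnW p W₀ N' N → ValuationSubring (AlgebraicClosure F)}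
    {τ : AnW p W₀ N' N → AlgebraicClosure F ≃ₐ[F] AlgebraicClosure F} (hv : ∀ w : AnW p W₀ N' N, Abv N' (v w) w.1)
    (hTI : TI (inS F) N.fixingSubgroup N'.fixingSubgroup (RV (W₀⁄F) p N' N) (AnW p W₀ N' N) v τ)
    (hτ' : ∀ w, τ w ∉ N.fixingSubgroup) (w : AnW p W₀ N' N)
    (T : Pt (W₀⁄F) (AlgebraicClosure F)) (hT : p • T = 0) :
    ∃ d : (AlgebraicClosure F ≃ₐ[F] AlgebraicClosure F) → Pt (W₀⁄F) (AlgebraicClosure F),
      RC (SSG.galS (W₀⁄F) (AlgebraicClosure F)).act p (SSG.galS (W₀⁄F) (AlgebraicClosure F)).U (inS F) N.fixingSubgroup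
        N'.fixingSubgroup (RV (W₀⁄F) p N' N) d ∧
      (∀ J ∈ (SSG.galS (W₀⁄F) (AlgebraicClosure F)).D, Tr (SSG.galS (W₀⁄F) (AlgebraicClosure F)).act N.fixingSubgroup J d) ∧
      d (τ w) = T ∧ ∀ w' : AnW p W₀ N' N, w' ≠ w → d (τ w') = 0 := by
  obtain ⟨hMN, -, hx⟩ := c2_pext hp.prime.pos c
  have hfin : FiniteDimensional F N := c.fin
  have hfin' : FiniteDimensional F N' := H55P.finDim_of_le c.le'
  obtain ⟨A, B, j, act, hA, hB', dta⟩ := SSG.exists_dtaAB hH hp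
  obtain ⟨Θ, hΘ⟩ := SSG.short_iso W₀ hA hB' hH.data.ell (Ω := AlgebraicClosure F)
  obtain ⟨π, hπ, hπp⟩ := exists_prime_above (F := F) hp.prime
  have D : Dat A B Om j act m ψ π p := ⟨dta, hπ, hπp⟩
  have hUN' := ce_unr hp c hU
  have hΘ' : ∀ (s : AlgebraicClosure F ≃ₐ[F] AlgebraicClosure F) (P : Pt (WAB A B) (AlgebraicClosure F)),
      Θ.symm (ac (WAB A B) s P) = ac (W₀⁄F) s (Θ.symm P) := fun s P => by
    apply Θ.injective
    rw [hΘ, Θ.apply_symm_apply, Θ.apply_symm_apply]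
  have hS' : SelZero (WAB A B) p N' := y6_transport p N' Θ.symm hΘ' hS
  obtain ⟨hpw, -, -⟩ := ce_norm hp c hU (hv w) w.2.2.1
  obtain ⟨d, hd, hdτ⟩ := e_two D (N := N') (N' := N) (nb_ofR hp.prime hp.unr hUN') hfin hUN' c.le' hx.norm c.deg' hpw w.2.2.1
    (fun V hV s hs S hS => ce_fixW hH hp c hU hA hB' dta hV w.2 s hs S hS) hS' (hv w) (hTI.mem w) (hTI.ine w) (hτ' w)
    (T := Θ T) (by rw [← map_nsmul, hT, map_zero])
  refine ⟨fun s => Θ.symm (d s), ⟨fun s hs t ht => ?_, ?_, fun s hs => ?_, fun V hV => ?_, fun V hV s hs hi => ?_⟩, fun J hJ => ?_,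
    ?_, fun w' hw' => ?_⟩
  · show Θ.symm (d (s * t)) = Θ.symm (d s) + ac (W₀⁄F) s (Θ.symm (d t))
    rw [hd.coc.mul s hs t ht, map_add, hΘ']
  · obtain ⟨L, hL, hdL⟩ := hd.coc.cont
    refine ⟨L.fixingSubgroup, ⟨L, hL, rfl⟩, fun s hs hsL => ?_⟩
    show Θ.symm (d s) = 0
    rw [hdL s hs hsL, map_zero]
  · show p • Θ.symm (d s) = 0
    rw [← map_nsmul, hd.tor s hs, map_zero]
  · by_cases hne : V = ⊤
    · refine ⟨0, fun s hs hi => ?_⟩
      have hi' : Inert V s := hi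
      rw [hne] at hi'
      rw [map_zero, sub_zero, ce_top hi']
      show Θ.symm (d 1) = 0
      obtain ⟨L, hL, hdL⟩ := hd.coc.cont
      rw [hdL 1 (one_mem _) (one_mem _), map_zero]
    · obtain ⟨P, hP⟩ := hd.loc V hne (by
        rintro w' rfl hVw
        exact hV ((ce_rvO hH hp c hB hU hVw).2 w.2))
      refine ⟨Θ.symm P, fun s hs hi => ?_⟩
      show Θ.symm (d s) = ac (W₀⁄F) s (Θ.symm P) - Θ.symm P
      rw [hP s hs (H55P.inert_dec V s hi), map_sub, hΘ']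
  · have hs' : s ∈ N'.fixingSubgroup := IntermediateField.fixingSubgroup_antitone c.le' hs
    have hi' : Inert V s := hi
    obtain ⟨w', hw'⟩ := ce_below (ce_ne hV) N'
    have hwA := (ce_rvO hH hp c hB hU hw').1 hV
    have hVp : V.valuation (p : AlgebraicClosure F) = 1 := by
      obtain ⟨⟨t, -, ht2, ht3⟩, -⟩ := hV
      exact ce_p hp hU ht2 ht3
    show Θ.symm (d s) = 0
    by_cases hww : w' = w.1
    · obtain ⟨P, hP⟩ := hd.loc' V (ce_ne hV)
      have h1 := hP s hs (H55P.inert_dec V s hi')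
      have hG : H35P.GoodW ((W₀⁄F)⁄(AlgebraicClosure F)) V := H55P.good_below W₀ N' V w' (ce_bel hw') hwA.1
      have h2 : ac (W₀⁄F) s (Θ.symm P) = Θ.symm P := by
        refine H55P.red_fix (W₀⁄F) V hG p hVp s hi' (Θ.symm P) ?_
        rw [← hΘ', ← map_sub, ← map_nsmul, ← h1, hd.tor s hs', map_zero]
      rw [h1, map_sub, hΘ', h2, sub_self]
    · rw [hd.out V (by
        rintro v' rfl hv'
        exact hww (abv_unique hw' hv')) hVp s hs' hi' (fun S hS =>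
          ce_fixW hH hp c hU hA hB' dta hw' hwA s ⟨hs', H55P.inert_dec V s hi'⟩ S hS), map_zero]
  · obtain ⟨V, hV, rfl⟩ := hJ
    obtain ⟨P, hP⟩ := hd.loc' V hV
    refine ⟨Θ.symm P, fun s hs hi => ?_⟩
    show Θ.symm (d s) = ac (W₀⁄F) s (Θ.symm P) - Θ.symm P
    rw [hP s hs hi, map_sub, hΘ']
  · show Θ.symm (d (τ w)) = T
    rw [hdτ, Θ.symm_apply_apply]
  · have hVp : (v w').valuation (p : AlgebraicClosure F) = 1 := ce_p hp hU (hTI.ine w') (hτ' w')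
    show Θ.symm (d (τ w')) = 0
    rw [hd.out (v w') (by
        rintro v' hv1 hv'
        apply hw'
        apply Subtype.ext
        rw [abv_unique (hv w') hv']
        exact hv1) hVp (τ w') (hTI.mem w') (hTI.ine w') (fun S hS =>
          ce_fixW hH hp c hU hA hB' dta (hv w') w'.2 (τ w') ⟨hTI.mem w', H55P.inert_dec (v w') (τ w') (hTI.ine w')⟩ S hS), map_zero]

/-- MODULE CE. -/
theorem ce_mainO (hH : BaseH F W₀ Om m ψ) (hp : PrimeH F W₀ p) (c : CycI p n M N' N γ) (hB : OkM p W₀ M) (hU : UnrP p N)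
    (hS : SelG p W₀ N') :
    ∃ (v : AnW p W₀ N' N → ValuationSubring (AlgebraicClosure F)) (τ : AnW p W₀ N' N → AlgebraicClosure F ≃ₐ[F] AlgebraicClosure F),
      TI (inS F) N.fixingSubgroup N'.fixingSubgroup (RV (W₀⁄F) p N' N) (AnW p W₀ N' N) v τ ∧
      ∀ (w : AnW p W₀ N' N) (T : Pt (W₀⁄F) (AlgebraicClosure F)), p • T = 0 →
        ∃ d : (AlgebraicClosure F ≃ₐ[F] AlgebraicClosure F) → Pt (W₀⁄F) (AlgebraicClosure F),
          RC (SSG.galS (W₀⁄F) (AlgebraicClosure F)).act p (SSG.galS (W₀⁄F) (AlgebraicClosure F)).U (inS F) N.fixingSubgroup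
            N'.fixingSubgroup (RV (W₀⁄F) p N' N) d ∧
          (∀ J ∈ (SSG.galS (W₀⁄F) (AlgebraicClosure F)).D, Tr (SSG.galS (W₀⁄F) (AlgebraicClosure F)).act N.fixingSubgroup J d) ∧
          d (τ w) = T ∧ ∀ w' : AnW p W₀ N' N, w' ≠ w → d (τ w') = 0 := by
  obtain ⟨v, τ, h1, h3, h2⟩ := ce_tiO hH hp c hB hU
  exact ⟨v, τ, h2, fun w T hT => ce_clsO hH hp c hB hU hS h1 h2 h3 w T hT⟩

open SSG in
/-- The theorem over F. -/
theorem c11_mainO (hH : BaseH F W₀ Om m ψ) (hp : PrimeH F W₀ p) 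
    (c : CycI p n M N' N γ) (hU : UnrP p N) (hB : OkM p W₀ M) (hS : SelG p W₀ N') (few : (AnW p W₀ N' N).ncard < p ^ n) :
    Nat.card (PP p ((galS (W₀⁄F) (AlgebraicClosure F)).res N.fixingSubgroup).Sha) = p ^ (2 * (AnW p W₀ N' N).ncard) ∧
      KP p ((galS (W₀⁄F) (AlgebraicClosure F)).res N.fixingSubgroup).Sha ∧
      {P : Pt (W₀⁄F) (AlgebraicClosure F) | ∀ s ∈ N.fixingSubgroup, ac (W₀⁄F) s P = P}.Finite ∧
      ∀ P : Pt (W₀⁄F) (AlgebraicClosure F), (∀ s ∈ N.fixingSubgroup, ac (W₀⁄F) s P = P) → p • P = 0 → P = 0 := by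
  obtain ⟨v, τ, hT, hE⟩ := ce_mainO hH hp c hB hU hS
  have S := c9_tsO hH hp c hU hB hS few
  have hfin : Finite {w // w ∈ AnW p W₀ N' N} := c6_fin hp.prime.pos c
  obtain ⟨h1, h2⟩ := ts_card S hT (c9_hI (W₀⁄F)) hE
  have hell : (W₀⁄F).IsElliptic := H55P.gen_ell W₀ hH.data.ell
  have hfd : FiniteDimensional F N := c.fin
  refine ⟨?_, h2, ?_, fun P h3 h4 => S.h0 P h4 h3⟩
  · rw [h1, c11_two hH hp, ← pow_mul]
    rfl
  · refine c11_fin (W₀⁄F) p hp.prime N fun P hP => ?_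
    obtain ⟨Q, hQ, hQ'⟩ := pts_div S P hP
    exact ⟨Q, hQ, hQ'⟩

end H41G
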