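import Mathlib
import Pool.Agent.Lib.H41G.Stm
import Pool.Agent.Lib.H41G.CE
import Pool.Agent.Lib.H13T.K3
import Pool.Agent.Lib.H13T.K4
import Pool.Agent.Lib.H13T.Q6
import Pool.Agent.Lib.SSG.Z.L8
import Pool.Agent.Lib.SSG.Z.Fin
import Pool.Agent.Lib.H35Z.Z3
import Pool.Agent.Lib.H55G.S1
import Pool.Agent.Lib.H55G.F8b

/-! # H41G: the theorem on nontrivial Tate-Shafarevich groups for complex multiplication by the integers of F, under OkM -/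

open NumberField IsDedekindDomain WeierstrassCurve

namespace H41G

open H55N
open H55P (IQ UnrP ac inS Pt PExt)
open H55K H55K.TQ
open H19A (ShaP)
open SSG
open H13T
open H55G (OkM RelV1 RelV2 relV1_of relV2_of ok_of ok_up lunit_iffV)
open H55Z (sD sD_sq)
open H35Z (unr_up z2_val z3_sD z3_conj)

open Classical in
/-- The algebraic half of the theorem over K. -/
theorem alg_mainO {F : Type} [Field F] [NumberField F] [IQ F] {W : WeierstrassCurve ℤ} {Om : ℂ} {m : Ideal (𝓞 F)} {ψ : Ideal (𝓞 F) →*₀ 𝓞 F}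
    (hH : BaseH F (W⁄(𝓞 F)) Om m ψ) {p : ℕ} (hp : PrimeH F (W⁄(𝓞 F)) p) {M K' K : Type} [Field M] [NumberField M] [Field K'] [NumberField K']
    [Field K] [NumberField K] [Algebra M K'] [Algebra K' K] [Algebra M K] (ιK : K →ₐ[ℚ] AlgebraicClosure F) {n : ℕ}
    (h : HypSO F p n W M K' K ιK) :
    (Finite (W⁄K).toAffine.Point ∧ ¬ p ∣ Nat.card (W⁄K).toAffine.Point) ∧
      Nat.card (ShaP p K (W⁄K)) = p ^ (2 * (AnR p W K' K).ncard) ∧
      ∀ z : H16C.Sha (W⁄K).toAffine (AlgebraicClosure K), (∃ k : ℕ, (p ^ k : ℕ) • z = 0) → p • z = 0 := by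
  have hp2 : p ≠ 2 := by
    have := hp.five
    omega
  obtain ⟨γ, c⟩ := q_cyc hp.prime hp2 h.pos h.cyc ιK
  have hUN : UnrP p (KG F K ιK) := unr_up hp.prime hp2 hp.unr K ιK h.unr
  have hSel : H55P.SelG p (W⁄(𝓞 F)) (KG F K' (emb ιK : K' →ₐ[ℚ] AlgebraicClosure F)) :=
    H13R.selG_of_triv hH hp.prime hp2 hp.unr K' (emb ιK) h.unit.1.1
  obtain ⟨d, hd, hdeg, hfin, hcard⟩ := q_card hp.prime hp2 h.pos h.cyc h.unr hH ιK
  have few : (AnW p (W⁄(𝓞 F)) (KG F K' (emb ιK : K' →ₐ[ℚ] AlgebraicClosure F)) (KG F K ιK)).ncard < p ^ n := by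
    rw [hcard]
    have hf := h.few
    rcases hd with rfl | rfl
    · omega
    · exact hf
  obtain ⟨m1, m2, m3, m4⟩ := c11_mainO hH hp c hUN h.ok hSel few
  refine ⟨pts_KG W hp.prime K ιK m3 m4, ?_, kp_KG hH hp.prime hp2 K ιK m2⟩
  obtain ⟨d', hd', hdeg', hcard'⟩ := card_KG hH hp.prime hp2 hp.unr K ιK
  have hdd : d' = d := by
    have h1 : 0 < Module.finrank ℚ K := Module.finrank_pos
    exact Nat.eq_of_mul_eq_mul_right h1 (hdeg'.symm.trans hdeg)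
  rw [m1, hcard, hdd] at hcard'
  have hd0 : d ≠ 0 := by
    rw [← hdd]
    exact hd'.ne'
  have e1 : p ^ (2 * (d * (AnR p W K' K).ncard)) = (p ^ (2 * (AnR p W K' K).ncard)) ^ d := by
    rw [← pow_mul]
    congr 1
    ring
  rw [e1] at hcard'
  exact Nat.pow_left_injective hd0 hcard'

variable {F : Type} [Field F] [NumberField F] [IQ F] {W : WeierstrassCurve ℤ} {Om : ℂ} {m : Ideal (𝓞 F)} {ψ : Ideal (𝓞 F) →*₀ 𝓞 F} {p : ℕ}

/-- The L-value over K. -/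
theorem z3_realO (hH : BaseH F (W⁄(𝓞 F)) Om m ψ) (hp : PrimeH F (W⁄(𝓞 F)) p) (K : Type) [Field K] [NumberField K]
    (ι : K →ₐ[ℚ] AlgebraicClosure F) (hU : UnrP p K) (hR : RelV2 p W Om ψ K (KG F K ι)) {Φ : ℂ → ℂ}
    (hΦa : AnalyticOnNhd ℂ Φ {s | 1 / 2 < s.re}) (hΦs : ∀ s : ℂ, 3 / 2 < s.re → HasSum (tm (H55P.PsiP (KG F K ι) ψ) s) (Φ s)) (hΦ1 : Φ 1 ≠ 0)
    {r a d : ℕ} (hd : d = 1 ∨ d = 2) (hdeg : Module.finrank ℚ (KG F K ι) = d * Module.finrank ℚ K) (hr : r = d * a)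
    (hv : ∀ V : ValuationSubring ℂ, V.valuation (p : ℂ) < 1 →
      V.valuation (Φ 1 / Om ^ Module.finrank F (KG F K ι)) = V.valuation (p : ℂ) ^ r) :
    ∃ Λ : ℂ → ℂ, AnalyticOnNhd ℂ Λ {s | 1 / 2 < s.re} ∧
      (∀ s : ℂ, 3 / 2 < s.re → LSeriesSummable (fun n => (((W⁄K).LFunction n : ℤ) : ℂ)) s ∧ Λ s = (W⁄K).LSeries s) ∧
      Λ 1 ≠ 0 ∧
      ∀ L : PeriodPair, PerZ W L → ∀ V : ValuationSubring ℂ, V.valuation (p : ℂ) < 1 →
        V.valuation (lG K W L (Λ 1)) = V.valuation (p : ℂ) ^ (2 * a) := by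
  obtain ⟨Λ, h1, h2, h3, h4⟩ := hR Φ hΦa hΦs
  refine ⟨Λ, h1, h2, h3 hΦ1, fun L hL V hV => ?_⟩
  have hfd : FiniteDimensional F (KG F K ι) := H13R.kg_fin F K ι
  have hpos : 0 < Module.finrank ℚ K := Module.finrank_pos
  have hx0 : Φ 1 / Om ^ Module.finrank F (KG F K ι) ≠ 0 := div_ne_zero hΦ1 (pow_ne_zero _ hH.data.per.ne)
  have e1 : Module.finrank ℚ (KG F K ι) = 2 * Module.finrank F (KG F K ι) := by
    rw [← Module.finrank_mul_finrank ℚ F (KG F K ι), IQ.deg]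
  have hone := z3_sD hp.prime K hU V hV
  rcases h4 V hV L hL with ⟨hk, h⟩ | ⟨hk, h⟩
  · have hd1 : d = 1 := by
      rcases hd with h5 | h5
      · exact h5
      · rw [h5, e1, hk] at hdeg
        omega
    rw [h, hv V hV, z3_conj hp.prime hx0 hv V hV, hone, mul_one, hr, hd1, one_mul, ← pow_add, two_mul]
  · have hd2 : d = 2 := by
      rcases hd with h5 | h5
      · rw [h5, e1, hk] at hdeg
        omega
      · exact h5
    rw [h, hv V hV, hone, mul_one, hr, hd2]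

/-- The analytic half over K. -/
theorem z4_anaO (hH : BaseH F (W⁄(𝓞 F)) Om m ψ) (hp : PrimeH F (W⁄(𝓞 F)) p) {M K' K : Type} [Field M] [NumberField M] [Field K']
    [NumberField K'] [Field K] [NumberField K] [Algebra M K'] [Algebra K' K] [Algebra M K] (ιK : K →ₐ[ℚ] AlgebraicClosure F) {n : ℕ}
    (h : HypSO F p n W M K' K ιK) :
    ∃ Λ : ℂ → ℂ, AnalyticOnNhd ℂ Λ {s | 1 / 2 < s.re} ∧
      (∀ s : ℂ, 3 / 2 < s.re → LSeriesSummable (fun n => (((W⁄K).LFunction n : ℤ) : ℂ)) s ∧ Λ s = (W⁄K).LSeries s) ∧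
      Λ 1 ≠ 0 ∧
      ∀ L : PeriodPair, PerZ W L → ∀ V : ValuationSubring ℂ, V.valuation (p : ℂ) < 1 →
        V.valuation (lG K W L (Λ 1)) = V.valuation (p : ℂ) ^ (2 * (AnR p W K' K).ncard) := by
  have hpp := hp.prime
  have hp2 : p ≠ 2 := by
    have := hp.five
    omega
  obtain ⟨γ, c⟩ := q_cyc (F := F) hpp hp2 h.pos h.cyc ιK
  have hU : UnrP p (KG F K ιK) := unr_up hpp hp2 hp.unr K ιK h.unr
  have hUK' : UnrP p K' := H55P.UnrP.down K' K p hpp h.unr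
  obtain ⟨hL1, hL2, hL3⟩ := c2_pext hpp.pos c
  have hUM := H13R.unr_le hpp (c.le.trans c.le') hU
  have hUN' := H13R.unr_le hpp c.le' hU
  have hLU : H13R.LUnitG p W K' := (H13R.an_iff hpp h.unit.1.2.2.2).1 h.unit.2
  have hR' : RelV1 p W Om ψ K' (KG F K' (emb ιK : K' →ₐ[ℚ] AlgebraicClosure F)) :=
    relV1_of hH hp K' (emb ιK : K' →ₐ[ℚ] AlgebraicClosure F) hUK'
      (ok_of hH K' (emb ιK : K' →ₐ[ℚ] AlgebraicClosure F) (ok_up hH hp hL2 c.le le_rfl h.ok))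
  have hR : RelV2 p W Om ψ K (KG F K ιK) :=
    relV2_of hH hp K ιK (ok_of hH K ιK (ok_up hH hp hL1 (c.le.trans c.le') le_rfl h.ok))
  have hI' := H13R.gen_intR hH hp hUM hL2 c.le le_rfl hUN'
  have hval := (lunit_iffV hH hp K' (KG F K' (emb ιK : K' →ₐ[ℚ] AlgebraicClosure F)) hR' hI').1 hLU
  obtain ⟨d, hd, hdeg, -, hcard⟩ := q_card hpp hp2 h.pos h.cyc h.unr hH ιK
  have hr : (AnW p (W⁄(𝓞 F)) (KG F K' (emb ιK : K' →ₐ[ℚ] AlgebraicClosure F)) (KG F K ιK)).ncard < p ^ n := by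
    rw [hcard]
    refine lt_of_le_of_lt (Nat.mul_le_mul_right _ ?_) h.few
    omega
  obtain ⟨Φ, hΦa, hΦs, hΦ1, hv⟩ := z2_val hH hp c hU hval (c6_fin hpp.pos c) hr
  exact z3_realO hH hp K ιK h.unr hR hΦa hΦs hΦ1 hd hdeg hcard hv

open Classical in
/-- THE THEOREM for complex multiplication by the integers of F. -/
theorem sha_maxO (hH : BaseH F (W⁄(𝓞 F)) Om m ψ) (hp : PrimeH F (W⁄(𝓞 F)) p) : ShaThmO F p W := by
  intro M K' K _ _ _ _ _ _ _ _ _ ιK n h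
  have hpp := hp.prime
  obtain ⟨hpts, hsha, hkil⟩ := alg_mainO hH hp ιK h
  obtain ⟨Λ, hΛa, hΛs, hΛ1, hΛv⟩ := z4_anaO hH hp ιK h
  refine ⟨hpts, hsha, hkil, exists_perZ (perW_of hH), Λ, hΛa, hΛs, hΛ1, fun L hL V hV => ?_⟩
  rw [shaG_lG, map_mul, map_pow, H55P.val_nat p hpp V hV _ hpts.2, one_pow, mul_one, hΛv L hL V hV, hsha, Nat.cast_pow, map_pow]

end H41G
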