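import Mathlib
import Pool.Agent.Lib.H41G.Z
import Pool.Agent.Lib.H35Z.Z5A
import Pool.Agent.Lib.H35U.MainB
import Pool.Agent.Lib.H28I.A1
import Pool.Agent.Lib.H13T.K4
import Pool.Agent.Lib.H55G.J4
import Pool.Agent.Lib.H19A.Res

/-! # H41G: the theorem on nontrivial Tate-Shafarevich groups for all orders of class number one, under OkM -/

open NumberField IsDedekindDomain WeierstrassCurve

namespace H41G

open H55P (IQ embF eF LF Per IsHecke Pt ac Inert Dec Nm UnitP UnrP PExt)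
open H55K H55K.TQ
open H13T
open SSG (galS PP bridge iso6_card ShaC fin_ell)
open H28I (TW tw_prime)
open H35Z (z5_AnR)
open H55G (OkM okm_tw lfun_tw)

section iso

variable {F : Type} [Field F] [NumberField F] [IQ F] {W W' : WeierstrassCurve ℤ} {Om : ℂ} {m : Ideal (𝓞 F)}
    {ψ : Ideal (𝓞 F) →*₀ 𝓞 F} {kap : ℤ} {e t u lam : ℚ} {p : ℕ}

open Classical in
/-- KP and isogenies. -/
theorem z5_iso6O {K : Type} [Field K] {W₁ W₂ : WeierstrassCurve K} {Ω : Type} [Field Ω] [Algebra K Ω] (h : H28I.Iso6 W₁ W₂ Ω) {p : ℕ}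
    (hp : p.Prime) (h5 : 5 ≤ p) (hK : KP p (galS W₁ Ω).Sha) : KP p (galS W₂ Ω).Sha := by
  obtain ⟨Φ, Ψ, h1, h2, h3, h4⟩ := h
  have hm : ¬ p ∣ 6 := by
    intro hd
    have h6 := Nat.le_of_dvd (by norm_num) hd
    interval_cases p <;> revert hp hd <;> decide
  have H1 : SSG.Hom (galS W₁ Ω) (galS W₂ Ω) (MonoidHom.id (Ω ≃ₐ[K] Ω)) Φ :=
    ⟨fun g a => h3 g a, fun u hu => ⟨u, hu, fun g hg => hg⟩, fun d hd => ⟨d, hd, fun g hg => hg⟩⟩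
  have H2 : SSG.Hom (galS W₂ Ω) (galS W₁ Ω) (MonoidHom.id (Ω ≃ₐ[K] Ω)) Ψ :=
    ⟨fun g a => h4 g a, fun u hu => ⟨u, hu, fun g hg => hg⟩, fun d hd => ⟨d, hd, fun g hg => hg⟩⟩
  exact kp_hom hp hm H2 H1 (fun g => rfl) h2 hK

open Classical in
/-- THE THEOREM for isogenous curves. -/
theorem sha_iso_thmO (h : TW F W W' Om m ψ kap e t u lam) (hp' : PrimeH F (W'⁄(𝓞 F)) p) (hT : ShaThmO F p W) : ShaThmO F p W' := by
  intro M K' K _ _ _ _ _ _ _ _ _ ιK n hS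
  have hp := (tw_prime h).1 hp'
  have h5 := hp.five
  have h2 : p ≠ 2 := by omega
  have hpp : p.Prime := hp.prime
  have hAn := z5_AnR (p := p) h K' K
  have hok : OkM p (W⁄(𝓞 F)) (KG F M (emb ιK : M →ₐ[ℚ] AlgebraicClosure F)) := (okm_tw h _).1 hS.ok
  have hSK' := H13R.i1_same h hp K' (lfun_tw h K')
  have hSK := H13R.i1_same h hp K (lfun_tw h K)
  have hunit : BSDPG p W K' := (H35U.bsdB_iff h.base hp K' (emb ιK : K' →ₐ[ℚ] AlgebraicClosure F)).2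
    ⟨(H13R.i1_sel hpp h5 hSK').1 hS.unit.1.1, (H13R.i1_lunit hSK').1 ((H13R.an_iff hpp hS.unit.1.2.2.2).1 hS.unit.2)⟩
  have hO := hT M K' K ιK n ⟨hS.pos, hS.cyc, hS.unr, hok, hunit, by rw [← hAn]; exact hS.few⟩
  rw [hAn]
  obtain ⟨q1, q2⟩ := H28I.pts_iso hpp h5 (H28I.a0_disc hSK.disc' K) hSK.iso hO.pts.1 hO.pts.2
  have hWK : (W⁄K).IsElliptic := fin_ell hSK.disc K
  have hWK' : (W'⁄K).IsElliptic := fin_ell hSK.disc' K
  have hcard : Nat.card (H19A.ShaP p K (W'⁄K)) = Nat.card (H19A.ShaP p K (W⁄K)) := by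
    have e1 : Nat.card (ShaC p K (W⁄K)) = _ := bridge (W⁄K) hpp h2
    have e2 : Nat.card (ShaC p K (W'⁄K)) = _ := bridge (W'⁄K) hpp h2
    have e3 := iso6_card hSK.iso hpp h5
    exact e2.trans (e3.symm.trans e1.symm)
  have hkil : ∀ z : H16C.Sha (W'⁄K).toAffine (AlgebraicClosure K), (∃ k : ℕ, (p ^ k : ℕ) • z = 0) → p • z = 0 :=
    bridge_kp (W'⁄K) hpp h2 (z5_iso6O hSK.iso hpp h5 (bridge_kp2 (W⁄K) hpp h2 hO.kil))
  rw [hO.sha] at hcard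
  obtain ⟨Λ, hΛa, hΛs, hΛ1, hΛv⟩ := hO.bsd
  refine ⟨⟨q1, q2⟩, hcard, hkil, hSK.ex', Λ, hΛa, (H28I.a0_ser hSK Λ).2 hΛs, hΛ1, fun L hL V hV => ?_⟩
  obtain ⟨L₀, hL₀⟩ := hSK.ex
  have e1 := hΛv L₀ hL₀ V hV
  rw [shaG_lG, map_mul, map_pow, H55P.val_nat p hpp V hV _ hO.pts.2, one_pow, mul_one, hO.sha] at e1
  rw [shaG_lG, map_mul, map_pow, H55P.val_nat p hpp V hV _ q2, one_pow, mul_one, hcard, hSK.per L₀ L hL₀ hL V hV]
  exact e1

end iso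

/-- THE THEOREM, all 13 orders of class number one. -/
theorem sha_allO (F : Type) [Field F] [NumberField F] [IQ F] (W' : WeierstrassCurve ℤ) (hC : H19A.CM F W') (p : ℕ) (hp : p.Prime) (h5 : 5 ≤ p)
    (hd : ¬ (p : ℤ) ∣ W'.Δ) : ShaThmO F p W' := by
  have hcub : ∀ w : 𝓞 F, w ^ 2 + w + 1 = 0 → ∀ n : ℤ, n ≠ 0 →
      ∃ κ : 𝓞 F → 𝓞 F, H55W.PRC (𝓞 F) 3 n (3 * n) (27 * n) κ := fun w hw n hn => H55W.cub_F F IQ.deg w hw n hn
  rcases H55Y.y5_cases hC hcub with ⟨Om, hper⟩ | ⟨W, Om, m, ψ, kap, e, t, u, lam, hΔ, hper, h⟩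
  · obtain ⟨hΔ, hmin, -⟩ := hC
    obtain ⟨ψ, hH⟩ := H55W.base_all0 hcub W' Om hΔ hper hmin
    exact sha_maxO hH (H55W.prime_simple hΔ hper hp h5 hd)
  · have hP0 := H55W.prime_simple hΔ hper hp h5 fun h' => hd (H55Y.y6_dvd h hp h')
    exact sha_iso_thmO h ((H28I.tw_prime h).2 hP0) (sha_maxO h.base hP0)

end H41G
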